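import Pool.Agent.J4H59.PL.Stm3

/-! Project CY, job LNE: lines in a group covered by finitely many translates of double cosets. -/

set_option autoImplicit false

open scoped Classical Pointwise

namespace Pool.Agent.J4H5.CY

open Pool.Agent.J4H59.PL

/-- the double cosets -/
def DC {G : Type} [Group G] (N : Subgroup G) (t : G) (k : ℕ) (x : G) : Prop :=
  ∃ a ∈ N, ∃ b ∈ N, x = a * t ^ k * b

section

variable {G : Type} [Group G] {N : Subgroup G} {t : G}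

theorem mulA (h : Tdy N t) (k l : ℕ) : ∀ m ∈ N, ∃ a ∈ N, ∃ b ∈ N, t ^ k * m * t ^ l = a * t ^ (k + l) * b := by
  induction l with
  | zero => intro m hm; exact ⟨1, N.one_mem, m, hm, by simp⟩
  | succ l ih =>
    intro m hm
    obtain ⟨a, ha, b, hb, e⟩ := ih m hm
    obtain ⟨a', ha', b', hb', e'⟩ := h.mul (k + l) b hb
    refine ⟨a * a', N.mul_mem ha ha', b', hb', ?_⟩
    calc t ^ k * m * t ^ (l + 1) = (t ^ k * m * t ^ l) * t := by rw [pow_succ]; group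
      _ = a * (t ^ (k + l) * b * t) := by rw [e]; group
      _ = a * a' * t ^ (k + (l + 1)) * b' := by rw [e', add_assoc]; group

theorem dc_mul (h : Tdy N t) {k l : ℕ} {x y : G} (hx : DC N t k x) (hy : DC N t l y) : DC N t (k + l) (x * y) := by
  obtain ⟨a, ha, b, hb, rfl⟩ := hx
  obtain ⟨a', ha', b', hb', rfl⟩ := hy
  obtain ⟨a2, ha2, b2, hb2, e⟩ := mulA h k l (b * a') (N.mul_mem hb ha')
  refine ⟨a * a2, N.mul_mem ha ha2, b2 * b', N.mul_mem hb2 hb', ?_⟩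
  calc a * t ^ k * b * (a' * t ^ l * b') = a * (t ^ k * (b * a') * t ^ l) * b' := by group
    _ = a * a2 * t ^ (k + l) * (b2 * b') := by rw [e]; group

theorem dc_unique (h : Tdy N t) {k l : ℕ} {x : G} (hx : DC N t k x) (hy : DC N t l x) : k = l := by
  obtain ⟨a, ha, b, hb, rfl⟩ := hx
  obtain ⟨a', ha', b', hb', e⟩ := hy
  refine h.lev k l (a⁻¹ * a') (b' * b⁻¹) (N.mul_mem (N.inv_mem ha) ha') (N.mul_mem hb' (N.inv_mem hb)) ?_
  calc t ^ k = a⁻¹ * (a * t ^ k * b) * b⁻¹ := by group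
    _ = a⁻¹ * a' * t ^ l * (b' * b⁻¹) := by rw [e]; group

theorem dc_left {k : ℕ} {x n : G} (hn : n ∈ N) (hx : DC N t k x) : DC N t k (n * x) := by
  obtain ⟨a, ha, b, hb, rfl⟩ := hx
  exact ⟨n * a, N.mul_mem hn ha, b, hb, by group⟩

theorem dc_right {k : ℕ} {x n : G} (hn : n ∈ N) (hx : DC N t k x) : DC N t k (x * n) := by
  obtain ⟨a, ha, b, hb, rfl⟩ := hx
  exact ⟨a, ha, b * n, N.mul_mem hb hn, by group⟩

theorem dc_pow (k : ℕ) : DC N t k (t ^ k) := ⟨1, N.one_mem, 1, N.one_mem, by simp⟩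

theorem le_comm : N ≤ Subgroup.Commensurable.commensurator N := by
  intro n hn
  rw [Subgroup.Commensurable.commensurator_mem_iff]
  have : ConjAct.toConjAct n • N = N := by
    ext x
    rw [Subgroup.mem_pointwise_smul_iff_inv_smul_mem, ConjAct.smul_def]
    simp only [ConjAct.ofConjAct_inv, ConjAct.ofConjAct_toConjAct, inv_inv]
    constructor
    · intro h
      have := N.mul_mem (N.mul_mem hn h) (N.inv_mem hn)
      have e : n * (n⁻¹ * x * n) * n⁻¹ = x := by group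
      rwa [e] at this
    · intro h
      exact N.mul_mem (N.mul_mem (N.inv_mem hn) h) hn
  rw [this]

theorem fincos {u : G} (hu : u ∈ Subgroup.Commensurable.commensurator N) :
    ∃ F : Finset G, ∀ a ∈ N, ∃ f ∈ F, ∃ n ∈ N, a * u = f * n := by
  rw [Subgroup.Commensurable.commensurator_mem_iff] at hu
  obtain ⟨h1, -⟩ := hu
  have hK : ((ConjAct.toConjAct u • N).subgroupOf N).FiniteIndex := ⟨h1⟩
  have hf : Finite (N ⧸ ((ConjAct.toConjAct u • N).subgroupOf N)) := Subgroup.finite_quotient_of_finiteIndex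
  have := Fintype.ofFinite (N ⧸ ((ConjAct.toConjAct u • N).subgroupOf N))
  refine ⟨Finset.univ.image (fun q : N ⧸ ((ConjAct.toConjAct u • N).subgroupOf N) => ((Quotient.out q : N) : G) * u), ?_⟩
  intro a ha
  obtain ⟨q, hq⟩ : ∃ q : N ⧸ ((ConjAct.toConjAct u • N).subgroupOf N), q = QuotientGroup.mk (⟨a, ha⟩ : N) := ⟨_, rfl⟩
  have h2 : (Quotient.out q)⁻¹ * (⟨a, ha⟩ : N) ∈ (ConjAct.toConjAct u • N).subgroupOf N := by
    rw [← QuotientGroup.eq]
    rw [← hq]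
    exact QuotientGroup.out_eq' q
  rw [Subgroup.mem_subgroupOf, Subgroup.mem_pointwise_smul_iff_inv_smul_mem, ConjAct.smul_def] at h2
  simp only [ConjAct.ofConjAct_inv, ConjAct.ofConjAct_toConjAct, inv_inv, Subgroup.coe_mul, Subgroup.coe_inv] at h2
  exact ⟨_, Finset.mem_image_of_mem _ (Finset.mem_univ q), _, h2, by group⟩

theorem opp (h : Tdy N t) (u : G) : ∃ F : Finset G, ∀ (x : G) (i j : ℕ), DC N t i x → DC N t j (x⁻¹ * u) →
    ∃ f ∈ F, ∃ n ∈ N, x = f * n := by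
  by_cases hm : ∃ m, DC N t m u
  · obtain ⟨m, hm⟩ := hm
    have hf : ∀ i : ℕ, ∃ F : Finset G, ∀ a ∈ N, ∃ f ∈ F, ∃ n ∈ N, a * t ^ i = f * n := fun i =>
      fincos (Subgroup.pow_mem _ h.comm i)
    choose F hF using hf
    refine ⟨(Finset.range (m + 1)).biUnion F, fun x i j hx hy => ?_⟩
    have h1 := dc_mul h hx hy
    rw [mul_inv_cancel_left] at h1
    have h2 := dc_unique h h1 hm
    obtain ⟨a, ha, b, hb, rfl⟩ := hx
    obtain ⟨f, hf, n, hn, e⟩ := hF i a ha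
    refine ⟨f, Finset.mem_biUnion.2 ⟨i, Finset.mem_range.2 (by omega), hf⟩, n * b, N.mul_mem hn hb, ?_⟩
    rw [e, mul_assoc]
  · refine ⟨∅, fun x i j hx hy => absurd ⟨i + j, ?_⟩ hm⟩
    have h1 := dc_mul h hx hy
    rwa [mul_inv_cancel_left] at h1

theorem bnd0 (h : Tdy N t) (f : G) : ∃ c : ℕ, ∀ i s : ℕ, DC N t s (f⁻¹ * t ^ i) → s ≤ i + c := by
  by_cases hm : ∃ i s : ℕ, DC N t s (f⁻¹ * t ^ i)
  · obtain ⟨i₀, s₀, h0⟩ := hm
    refine ⟨s₀, fun i s hs => ?_⟩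
    rcases le_total i₀ i with hi | hi
    · have h1 := dc_mul h h0 (dc_pow (N := N) (t := t) (i - i₀))
      rw [mul_assoc, ← pow_add, Nat.add_sub_cancel' hi] at h1
      have := dc_unique h hs h1
      omega
    · have h1 := dc_mul h hs (dc_pow (N := N) (t := t) (i₀ - i))
      rw [mul_assoc, ← pow_add, Nat.add_sub_cancel' hi] at h1
      have := dc_unique h h1 h0
      omega
  · exact ⟨0, fun i s hs => absurd ⟨i, s, hs⟩ hm⟩

theorem dc_comm (h : Tdy N t) {k : ℕ} {x : G} (hx : DC N t k x) : x ∈ Subgroup.Commensurable.commensurator N := by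
  obtain ⟨a, ha, b, hb, rfl⟩ := hx
  exact Subgroup.mul_mem _ (Subgroup.mul_mem _ (le_comm ha) (Subgroup.pow_mem _ h.comm k)) (le_comm hb)

theorem bnd1 (h : Tdy N t) (g : G) : ∃ c : ℕ, ∀ (i s : ℕ) (x : G), DC N t i x → DC N t s (g⁻¹ * x) → s ≤ i + c := by
  by_cases hm : ∃ (i s : ℕ) (x : G), DC N t i x ∧ DC N t s (g⁻¹ * x)
  · obtain ⟨i₀, s₀, x₀, h0, h0'⟩ := hm
    have hg : g ∈ Subgroup.Commensurable.commensurator N := by
      have h1 := Subgroup.mul_mem _ (dc_comm h h0) (Subgroup.inv_mem _ (dc_comm h h0'))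
      have e : x₀ * (g⁻¹ * x₀)⁻¹ = g := by group
      rwa [e] at h1
    obtain ⟨F, hF⟩ := fincos hg
    choose c hc using fun f : G => bnd0 h f
    refine ⟨F.sup c, fun i s x hx hs => ?_⟩
    obtain ⟨a, ha, b, hb, rfl⟩ := hx
    obtain ⟨f, hf, n, hn, e⟩ := hF a⁻¹ (N.inv_mem ha)
    have e2 : f⁻¹ * t ^ i = n * (g⁻¹ * (a * t ^ i * b)) * b⁻¹ := by
      have e3 : g⁻¹ * a = n⁻¹ * f⁻¹ := by
        calc g⁻¹ * a = (a⁻¹ * g)⁻¹ := by group
          _ = n⁻¹ * f⁻¹ := by rw [e]; group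
      calc f⁻¹ * t ^ i = n * (n⁻¹ * f⁻¹) * t ^ i := by group
        _ = n * (g⁻¹ * (a * t ^ i * b)) * b⁻¹ := by rw [← e3]; group
    have h3 : DC N t s (f⁻¹ * t ^ i) := by
      rw [e2]
      exact dc_right (N.inv_mem hb) (dc_left hn hs)
    have h4 := hc f i s h3
    have h5 : c f ≤ F.sup c := Finset.le_sup hf
    omega
  · exact ⟨0, fun i s x hx hs => absurd ⟨i, s, x, hx, hs⟩ hm⟩

end

/-- Job LNE -/
theorem t_LNE : S_LNE := by
  intro G _ N t h hcov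
  classical
  -- the subgroup
  have hci : (t⁻¹ : G) ∈ Subgroup.Commensurable.commensurator N := Subgroup.inv_mem _ h.comm
  rw [Subgroup.Commensurable.commensurator_mem_iff] at hci
  obtain ⟨T2, hT2⟩ := hcov ((ConjAct.toConjAct t⁻¹ • N) ⊓ N) inf_le_right (by
    rw [Subgroup.inf_relIndex_right]; exact hci.1)
  have hmem : ∀ x : G, x ∈ (ConjAct.toConjAct t⁻¹ • N) ⊓ N → t * x * t⁻¹ ∈ N ∧ x ∈ N := by
    intro x hx
    obtain ⟨h1, h2⟩ := Subgroup.mem_inf.1 hx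
    rw [Subgroup.mem_pointwise_smul_iff_inv_smul_mem, ConjAct.smul_def] at h1
    simp only [ConjAct.ofConjAct_inv, ConjAct.ofConjAct_toConjAct, inv_inv] at h1
    exact ⟨h1, h2⟩
  obtain ⟨T, hT⟩ : ∃ T : Finset G, T = insert 1 T2 := ⟨_, rfl⟩
  obtain ⟨X, hX⟩ : ∃ X : G → Prop, ∀ y, X y ↔ ∃ g ∈ T, ∃ l : ℕ, DC N t l (g⁻¹ * y) := ⟨_, fun _ => Iff.rfl⟩
  choose F hF using fun u : G => opp h u
  choose c hc using fun g : G => bnd1 h g
  -- the boundary
  have bdry : ∀ y, X y → ¬ X (y * t⁻¹) →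
      ∃ z ∈ T.biUnion (fun g => T.biUnion (fun g' => (F (g'⁻¹ * g)).image (fun f => g' * f))), ∃ n ∈ N, y = z * n := by
    intro y hy hny
    obtain ⟨g, hg, k, a, ha, b, hb, e⟩ := hT2 y
    have hgT : g ∈ T := by rw [hT]; exact Finset.mem_insert_of_mem hg
    rcases lt_or_ge 0 k with hk | hk
    · exfalso
      apply hny
      obtain ⟨l, hl⟩ : ∃ l : ℕ, k = l + 1 := ⟨(k - 1).toNat, by omega⟩
      rw [hX]
      refine ⟨g, hgT, l, a, (hmem a ha).2, t * b * t⁻¹, (hmem b hb).1, ?_⟩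
      rw [e, hl, zpow_add_one, zpow_natCast]
      group
    · obtain ⟨j, hj⟩ : ∃ j : ℕ, k = -(j : ℤ) := ⟨(-k).toNat, by omega⟩
      obtain ⟨g', hg', l, hl⟩ := (hX y).1 hy
      have h1 : DC N t j ((g'⁻¹ * y)⁻¹ * (g'⁻¹ * g)) := by
        refine ⟨b⁻¹, N.inv_mem (hmem b hb).2, a⁻¹, N.inv_mem (hmem a ha).2, ?_⟩
        rw [e, hj, zpow_neg, zpow_natCast]
        group
      obtain ⟨f, hf, n, hn, e2⟩ := hF _ _ _ _ hl h1
      refine ⟨g' * f, ?_, n, hn, ?_⟩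
      · refine Finset.mem_biUnion.2 ⟨g, hgT, Finset.mem_biUnion.2 ⟨g', hg', Finset.mem_image_of_mem _ hf⟩⟩
      · rw [mul_assoc, ← e2, mul_inv_cancel_left]
  refine ⟨T.biUnion (fun g => T.biUnion (fun g' => (F (g'⁻¹ * g)).image (fun f => g' * f))), T.sup c,
    fun i a ha b hb => ?_⟩
  have hx : DC N t i (a * t ^ i * b) := ⟨a, ha, b, hb, rfl⟩
  have bnd : ∀ s : ℕ, X (a * t ^ i * b * (t ^ s)⁻¹) → s ≤ i + T.sup c := by
    intro s hs
    obtain ⟨g, hg, l, hl⟩ := (hX _).1 hs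
    have h1 := dc_mul h hl (dc_pow (N := N) (t := t) s)
    have e : g⁻¹ * (a * t ^ i * b * (t ^ s)⁻¹) * t ^ s = g⁻¹ * (a * t ^ i * b) := by group
    rw [e] at h1
    have h2 := hc g _ _ _ hx h1
    have h3 : c g ≤ T.sup c := Finset.le_sup hg
    omega
  have hex : ∃ s : ℕ, ¬ X (a * t ^ i * b * (t ^ (s + 1))⁻¹) :=
    ⟨i + T.sup c, fun hcon => by have := bnd _ hcon; omega⟩
  have h1 := Nat.find_spec hex
  have h2 : X (a * t ^ i * b * (t ^ (Nat.find hex))⁻¹) := by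
    rcases Nat.eq_zero_or_eq_succ_pred (Nat.find hex) with h0 | h0
    · rw [h0, pow_zero, inv_one, mul_one, hX]
      refine ⟨1, by rw [hT]; exact Finset.mem_insert_self _ _, i, ?_⟩
      rw [inv_one, one_mul]
      exact hx
    · have h3 := Nat.find_min hex (m := Nat.pred (Nat.find hex)) (by omega)
      rw [not_not] at h3
      rw [h0]
      exact h3
  obtain ⟨z, hz, n, hn, e⟩ := bdry _ h2 (by
    have e : a * t ^ i * b * (t ^ (Nat.find hex))⁻¹ * t⁻¹ = a * t ^ i * b * (t ^ (Nat.find hex + 1))⁻¹ := by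
      rw [pow_succ]; group
    rw [e]
    exact h1)
  refine ⟨Nat.find hex, bnd _ h2, z, hz, n, hn, ?_⟩
  rw [← e]
  group

end Pool.Agent.J4H5.CY
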